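import Pool.Agent.MWGI.StmtsN

/-!
# Row NWR of the table mwgi: the right state
-/

namespace Pool.Agent.MWGI.H43

open Pool.Agent.Helper14_MV Pool.Agent.Helper2_MV Pool.Agent.MVO Pool.Agent.MWL Pool.Agent.MWS
  Pool.Agent.MWH Pool.Agent.MWGI

/-- the canonical blocks have no separators -/
theorem wz_ok (n k i p : ℕ) (Z : ℕ → Bool) (u v : ℕ) : BlkOk k (wz n i p Z u v) := by
  intro j _ c hc
  have h : c = 0 ∨ c = 1 := by
    unfold wz at hc
    split_ifs at hc
    · simp only [X, List.mem_append, List.mem_cons, List.mem_replicate] at hc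
      tauto
    · simp at hc; exact Or.inr hc
    · simp only [X, List.mem_replicate] at hc; exact Or.inl hc.2
    · simp at hc
  unfold NS
  omega

/-- insertion at both ends of block `i` -/
theorem wz_ins {n k i p : ℕ} {θ : FIC} {Z : ℕ → Bool} {u v u' v' : ℕ} (s t : ℕ)
    (h : Wz n k i p Z u v u' v' (RR θ)) : Wz n k i p Z (s + u) (v + t) (s + u') (v' + t) (RR θ) := by
  have h1 := rr_ins' θ (fun j => if j = i then X s else []) (fun j => if j = i then X t else [])
    (wz_ok n k i p Z u v) (wz_ok n k i p Z u' v') h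
  have h2 : ∀ u v : ℕ, (fun j => (if j = i then X s else []) ++ wz n i p Z u v j ++
      (if j = i then X t else [])) = wz n i p Z (s + u) (v + t) := by
    intro u v
    funext j
    by_cases hj : j = i
    · subst hj
      simp only [wz, if_true, X, List.replicate_add, List.append_assoc, List.cons_append]
    · simp only [wz, hj, if_false, List.nil_append, List.append_nil]
  rw [h2, h2] at h1
  exact h1

/-- row NWR -/
theorem nwr (h1 : WexStmt) : NwrStmt := by
  intro n k i p θ Z hB hi hp hip u u' v' hu huv hv h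
  have hn := hB.pos
  have a1 := wz_ins 0 (2 * n) h
  have a2 := h1 n k i p θ Z hB hi hp hip (0 + u') (v' + 2 * n) u' v' (by simp [Nat.ModEq])
    (by simp [Nat.ModEq]) (Or.inl (by omega)) (by
      rcases Nat.lt_or_ge v' 2 with h2 | h2
      · exact Or.inr (Or.inr ⟨by omega, hv, by omega⟩)
      · exact Or.inr (Or.inl ⟨by omega, h2⟩))
  have a3 : Wz n k i p Z (0 + u) (0 + 2 * n) u 0 (RR θ) :=
    θ.trans a1 (θ.trans a2 (RR.symm h))
  have a4 := wz_ins ((n - 1) * u + 2 * n) 0 (RR.symm a3)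
  have h3 : (n - 1) * u + 2 * n + u ≡ 2 * n [MOD n] := by
    obtain ⟨m, rfl⟩ : ∃ m, n = m + 1 := ⟨n - 1, by omega⟩
    have h5 : (m + 1 - 1) * u + 2 * (m + 1) + u = (m + 1) * (u + 2) := by
      rw [Nat.add_sub_cancel]; ring
    rw [h5]
    unfold Nat.ModEq
    rw [Nat.mul_mod_right, Nat.mul_mod_left]
  have a5 := h1 n k i p θ Z hB hi hp hip (2 * n) 0 ((n - 1) * u + 2 * n + u) (0 + 0) h3.symm
    (by simp [Nat.ModEq]) (Or.inr (Or.inl ⟨by omega, by omega⟩)) (Or.inl rfl)
  have a6 := h1 n k i p θ Z hB hi hp hip ((n - 1) * u + 2 * n + (0 + u)) (0 + 2 * n + 0) (2 * n)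
    (2 * n) (by rw [Nat.zero_add]; exact h3)
    (by simp [Nat.ModEq]) (Or.inr (Or.inl ⟨by omega, by omega⟩)) (Or.inl (by omega))
  exact θ.trans a5 (θ.trans a4 a6)

end Pool.Agent.MWGI.H43
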